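import Pool.Agent.H2.MVQ.Bas

/-! Row BallBall.  Two different balls of radius 1 meet in 0 or 2 points.

Proof.  Let `d = x + c ≠ 0`.  If `d = e i`: `ball x ∩ ball c = {x, c}` (2 points).  If `d = e i + e j` with
`i ≠ j`: the intersection is `{x + e i, x + e j}`.  Otherwise it is empty.  Alternatively (shorter): the map
`y ↦ y + d` is an involution of `ball x ∩ ball c` without fixed points when `d ≠ 0`: if `y ∈ ball x` then
`y + d = y + x + c`; `y + x ∈ {0} ∪ {e i}`, so `y + d ∈ ball c`, and symmetrically `y + d ∈ ball x` because
`y ∈ ball c`.  `y + d ≠ y`.  A finite set with a fixed point free involution has even cardinality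
(`Finset.card_involution` or `Finset.even_card_of_involution` ; `Finset.sum_involution` in `ZMod 2` applied
to the constant 1, `ZMod.natCast_eq_zero_iff_even`). -/

namespace Pool.Agent.H2.MVQ

theorem BallBall_mem {n : ℕ} {x y : Fin n → ZMod 2} :
    y ∈ ball x ↔ x + y = 0 ∨ ∃ i, x + y = e i := by
  rw [mem_ball]
  constructor
  · rintro (h | ⟨i, h⟩)
    · left
      rw [h, add_self]
    · right
      exact ⟨i, eq_add_iff.1 h⟩
  · rintro (h | ⟨i, h⟩)
    · left
      have := eq_add_iff.2 h
      rw [add_zero] at this
      exact this
    · right
      exact ⟨i, eq_add_iff.2 h⟩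

theorem even_ball_inter {n : ℕ} {x c : Fin n → ZMod 2} (h : x ≠ c) : Even (ball x ∩ ball c).card := by
  have key : (((ball x ∩ ball c).card : ℕ) : ZMod 2) = 0 := by
    have hs : ∑ y ∈ ball x ∩ ball c, (1 : ZMod 2) = 0 := by
      refine Finset.sum_involution (fun y _ => y + (x + c)) ?_ ?_ ?_ ?_
      · intro y _
        decide
      · intro y _ _ hy
        have h1 : x + c = 0 := by
          have : y + (x + c) = y + 0 := by rw [hy, add_zero]
          exact add_left_cancel this
        have h2 := eq_add_iff.2 h1
        rw [add_zero] at h2
        exact h h2.symm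
      · intro y hy
        rw [Finset.mem_inter, BallBall_mem, BallBall_mem] at hy
        rw [Finset.mem_inter, BallBall_mem, BallBall_mem]
        have e1 : x + (y + (x + c)) = c + y := by
          have : x + (y + (x + c)) = (x + x) + (c + y) := by abel
          rw [this, add_self, zero_add]
        have e2 : c + (y + (x + c)) = x + y := by
          have : c + (y + (x + c)) = (c + c) + (x + y) := by abel
          rw [this, add_self, zero_add]
        rw [e1, e2]
        exact ⟨hy.2, hy.1⟩
      · intro y _
        exact add_add_cancel y (x + c)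
    rw [Finset.sum_const, nsmul_eq_mul, mul_one] at hs
    exact hs
  exact (ZMod.natCast_eq_zero_iff_even).1 key

end Pool.Agent.H2.MVQ
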