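import Pool.Agent.H2.MVQ.Bas

/-! Row BallMV.  A subset of a closed ball is a 2-distance mutual-visibility set.

Proof.  Let `u, v ∈ M ⊆ ball c`.  If `u = v`: nil walk, `dist = 0`.  If `u` and `v` are adjacent: walk of
length 1, `dist = 1` (`SimpleGraph.dist_eq_one_iff_adj`).  Otherwise `u ≠ c` and `v ≠ c` (a point of the
ball other than `c` is adjacent to `c`), so `u = c + e i`, `v = c + e j`, `i ≠ j`.  Let
`w = c + e i + e j`.  Then `w = u + e j = v + e i` is adjacent to both, and `w ∉ ball c` (`e i + e j ≠ 0` and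
`e i + e j ≠ e a`: sum of coordinates in `ZMod 2`, or evaluate at `i`, `j`), so `w ∉ M`.  The walk
`u, w, v` has length 2, and `dist u v = 2` since it is at most 2 (`SimpleGraph.dist_le`), not 0
(`SimpleGraph.Reachable.dist_eq_zero_iff` or `SimpleGraph.dist_eq_zero_iff_eq_or_not_reachable`) and not 1.
Its support is `[u, w, v]`. -/

namespace Pool.Agent.H2.MVQ

theorem ball_mv {n : ℕ} {M : Set (Fin n → ZMod 2)} (c : Fin n → ZMod 2) (h : ∀ x ∈ M, x ∈ ball c) :
    IsMV2 (Q n) M := by
  intro u hu v hv
  by_cases huv : u = v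
  · subst huv
    refine ⟨SimpleGraph.Walk.nil, by simp, by simp, ?_⟩
    intro w hw h1 h2
    simp only [SimpleGraph.Walk.support_nil, List.mem_singleton] at hw
    exact absurd hw h1
  by_cases hadj : (Q n).Adj u v
  · refine ⟨hadj.toWalk, ?_, ?_, ?_⟩
    · rw [SimpleGraph.dist_eq_one_iff_adj.2 hadj]
      simp
    · simp
    · intro w hw h1 h2
      simp only [SimpleGraph.Walk.support_cons, SimpleGraph.Walk.support_nil,
        List.mem_cons, List.not_mem_nil, or_false] at hw
      rcases hw with hw | hw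
      · exact absurd hw h1
      · exact absurd hw h2
  have hnc : ∀ x y, x ∈ ball c → y ∈ ball c → x ≠ y → ¬ (Q n).Adj x y → x ≠ c := by
    intro x y hx hy hxy hna hxc
    rcases mem_ball.1 hy with h1 | ⟨i, h1⟩
    · exact hxy (hxc.trans h1.symm)
    · exact hna ((adj_iff _ _).2 ⟨i, by rw [hxc]; exact h1⟩)
  have huc : u ≠ c := hnc u v (h u hu) (h v hv) huv hadj
  have hvc : v ≠ c := hnc v u (h v hv) (h u hu) (Ne.symm huv) (fun h' => hadj h'.symm)
  obtain ⟨i, hi⟩ : ∃ i, u = c + e i := by
    rcases mem_ball.1 (h u hu) with h1 | h1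
    · exact absurd h1 huc
    · exact h1
  obtain ⟨j, hj⟩ : ∃ i, v = c + e i := by
    rcases mem_ball.1 (h v hv) with h1 | h1
    · exact absurd h1 hvc
    · exact h1
  have hij : i ≠ j := by
    rintro rfl
    exact huv (hi.trans hj.symm)
  have ha1 : (Q n).Adj u (c + e i + e j) := (adj_iff _ _).2 ⟨j, by rw [hi]⟩
  have ha2 : (Q n).Adj (c + e i + e j) v := by
    have h3 : (Q n).Adj v (c + e i + e j) :=
      (adj_iff _ _).2 ⟨i, by rw [hj, add_assoc, add_comm (e i), ← add_assoc]⟩
    exact h3.symm
  have hw : c + e i + e j ∉ M := by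
    intro hM
    rcases mem_ball.1 (h _ hM) with h1 | ⟨a, h1⟩
    · have h4 := congrFun h1 i
      simp [e_apply, hij] at h4
    · rw [add_assoc] at h1
      have h2 := add_left_cancel h1
      have h5 := congrFun h2 i
      have h6 := congrFun h2 j
      simp only [Pi.add_apply, e_apply, if_true, if_neg hij, if_neg (Ne.symm hij),
        add_zero, zero_add] at h5 h6
      by_cases hia : i = a
      · by_cases hja : j = a
        · exact hij (hia.trans hja.symm)
        · rw [if_neg hja] at h6
          exact one_ne_zero h6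
      · rw [if_neg hia] at h5
        exact one_ne_zero h5
  refine ⟨SimpleGraph.Walk.cons ha1 (SimpleGraph.Walk.cons ha2 SimpleGraph.Walk.nil), ?_, ?_, ?_⟩
  · have h7 : (Q n).dist u v ≤ 2 := by
      have := SimpleGraph.dist_le
        (SimpleGraph.Walk.cons ha1 (SimpleGraph.Walk.cons ha2 SimpleGraph.Walk.nil))
      simpa using this
    have h8 : (Q n).dist u v ≠ 0 := by
      intro h0
      rcases SimpleGraph.dist_eq_zero_iff_eq_or_not_reachable.1 h0 with h9 | h9
      · exact huv h9
      · exact h9 ⟨SimpleGraph.Walk.cons ha1 (SimpleGraph.Walk.cons ha2 SimpleGraph.Walk.nil)⟩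
    have h10 : (Q n).dist u v ≠ 1 := fun h1 => hadj (SimpleGraph.dist_eq_one_iff_adj.1 h1)
    simp only [SimpleGraph.Walk.length_cons, SimpleGraph.Walk.length_nil]
    omega
  · simp
  · intro w hw' h1 h2
    simp only [SimpleGraph.Walk.support_cons, SimpleGraph.Walk.support_nil,
      List.mem_cons, List.not_mem_nil, or_false] at hw'
    rcases hw' with hw' | hw' | hw'
    · exact absurd hw' h1
    · rw [hw']
      exact hw
    · exact absurd hw' h2

end Pool.Agent.H2.MVQ
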