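import Pool.Agent.H2.MVQ.Defs

/-! Basic facts on unit vectors, balls and tetrahedra in the cube `Fin n → ZMod 2`. -/

namespace Pool.Agent.H2.MVQ

variable {n : ℕ}

theorem e_apply (i j : Fin n) : e i j = if j = i then 1 else 0 := by
  simp [e, Pi.single_apply]

theorem add_self (x : Fin n → ZMod 2) : x + x = 0 := by
  funext i
  have : ∀ a : ZMod 2, a + a = 0 := by decide
  exact this _

theorem add_add_cancel (x y : Fin n → ZMod 2) : x + y + y = x := by
  rw [add_assoc, add_self, add_zero]

theorem e_ne_zero (i : Fin n) : e i ≠ 0 := by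
  intro h
  have := congrFun h i
  simp [e_apply] at this

theorem e_inj {i j : Fin n} : e i = e j ↔ i = j := by
  constructor
  · intro h
    by_contra hij
    have := congrFun h i
    simp [e_apply, hij] at this
  · rintro rfl; rfl

theorem eq_add_iff {x y z : Fin n → ZMod 2} : y = x + z ↔ x + y = z := by
  constructor
  · rintro rfl
    rw [← add_assoc, add_self, zero_add]
  · rintro rfl
    rw [← add_assoc, add_self, zero_add]

theorem adj_iff (x y : Fin n → ZMod 2) : (Q n).Adj x y ↔ ∃ i, y = x + e i := by
  have key : ∀ a b : ZMod 2, a ≠ b → b = a + 1 := by decide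
  have key2 : ∀ a : ZMod 2, a ≠ a + 1 := by decide
  constructor
  · rintro ⟨i, hi, hu⟩
    refine ⟨i, ?_⟩
    funext j
    by_cases hj : j = i
    · subst hj
      simp only [Pi.add_apply, e_apply, if_true]
      exact key _ _ hi
    · simp only [Pi.add_apply, e_apply, if_neg hj, add_zero]
      by_contra h
      exact hj (hu j (fun h' => h h'.symm))
  · rintro ⟨i, rfl⟩
    refine ⟨i, ?_, ?_⟩
    · simp only [Pi.add_apply, e_apply, if_true]
      exact key2 _
    · intro j hj
      by_contra h
      apply hj
      simp only [Pi.add_apply, e_apply, if_neg h, add_zero]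

theorem mem_ball {x y : Fin n → ZMod 2} : y ∈ ball x ↔ y = x ∨ ∃ i, y = x + e i := by
  simp [ball]

theorem mem_ball_comm {x y : Fin n → ZMod 2} : y ∈ ball x ↔ x ∈ ball y := by
  rw [mem_ball, mem_ball]
  constructor
  · rintro (h | ⟨i, h⟩)
    · exact Or.inl h.symm
    · exact Or.inr ⟨i, by rw [h, add_add_cancel]⟩
  · rintro (h | ⟨i, h⟩)
    · exact Or.inl h.symm
    · exact Or.inr ⟨i, by rw [h, add_add_cancel]⟩

theorem ball_eq (x : Fin n → ZMod 2) :
    ball x = insert x (Finset.univ.image fun i => x + e i) := by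
  ext y
  simp only [mem_ball, Finset.mem_insert, Finset.mem_image, Finset.mem_univ, true_and]
  constructor
  · rintro (h | ⟨i, h⟩)
    · exact Or.inl h
    · exact Or.inr ⟨i, h.symm⟩
  · rintro (h | ⟨i, h⟩)
    · exact Or.inl h
    · exact Or.inr ⟨i, h.symm⟩

theorem card_ball (x : Fin n → ZMod 2) : (ball x).card = n + 1 := by
  rw [ball_eq, Finset.card_insert_of_notMem, Finset.card_image_of_injective]
  · simp
  · intro i j h
    have h' : x + e i = x + e j := h
    exact e_inj.1 (add_left_cancel h')
  · simp only [Finset.mem_image, Finset.mem_univ, true_and, not_exists]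
    intro i h
    have : e i = 0 := by
      have h2 : x + e i = x + 0 := by rw [h, add_zero]
      exact add_left_cancel h2
    exact e_ne_zero i this

theorem mem_tet {p x : Fin n → ZMod 2} {i j k : Fin n} :
    x ∈ tet p i j k ↔ x = p ∨ x = p + e i + e j ∨ x = p + e i + e k ∨ x = p + e j + e k := by
  simp [tet]

theorem card_tet_le (p : Fin n → ZMod 2) (i j k : Fin n) : (tet p i j k).card ≤ 4 := by
  unfold tet
  exact Finset.card_le_four

theorem card_cube : Fintype.card (Fin n → ZMod 2) = 2 ^ n := by
  simp [ZMod.card]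

theorem self_mem_ball (x : Fin n → ZMod 2) : x ∈ ball x := mem_ball.2 (Or.inl rfl)

theorem add_e_mem_ball (x : Fin n → ZMod 2) (i : Fin n) : x + e i ∈ ball x :=
  mem_ball.2 (Or.inr ⟨i, rfl⟩)

end Pool.Agent.H2.MVQ
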