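import Pool.Agent.H2.MVQ.BallMV

/-! Row ChiLe.  `chi (Q n) ≤ dom (Q n)`.

Proof.  The set in the definition of `dom` is nonempty (take `D = univ`), so by `Nat.sInf_mem` there is a
dominating set `D` with `D.card = dom (Q n)`.  Choose for every `x` a point `g x ∈ D` with `x ∈ ball (g x)`
and `g x = x` when `x ∈ D` (for `x ∉ D` use an adjacent point of `D`, `adj_iff`, `mem_ball_comm`).  Compose
`g` with the bijection `D ≃ Fin D.card` (`Finset.equivFin`, or `D.equivFinOfCardEq`): `f : V → Fin (dom (Q n))`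
is surjective (a point `d ∈ D` is `g d`) and every fibre lies in a ball, so is a mutual-visibility set by
`ball_mv`.  So `dom (Q n)` is in the set of the definition of `chi`: `Nat.sInf_le`. -/

namespace Pool.Agent.H2.MVQ

theorem chi_le_dom (n : ℕ) : chi (Q n) ≤ dom (Q n) := by
  classical
  have hne : {k | ∃ D : Finset (Fin n → ZMod 2), D.card = k ∧
      ∀ v, v ∉ D → ∃ u ∈ D, (Q n).Adj v u}.Nonempty :=
    ⟨_, Finset.univ, rfl, fun v hv => absurd (Finset.mem_univ v) hv⟩
  obtain ⟨D, hD, hdom⟩ := Nat.sInf_mem hne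
  have hD' : D.card = dom (Q n) := hD
  have h1 : ∀ x, ∃ d : D, x ∈ ball (d : Fin n → ZMod 2) ∧
      (x ∈ D → (d : Fin n → ZMod 2) = x) := by
    intro x
    by_cases hx : x ∈ D
    · exact ⟨⟨x, hx⟩, self_mem_ball x, fun _ => rfl⟩
    · obtain ⟨u, hu, ha⟩ := hdom x hx
      obtain ⟨i, hi⟩ := (adj_iff x u).1 ha
      exact ⟨⟨u, hu⟩, mem_ball_comm.1 (mem_ball.2 (Or.inr ⟨i, hi⟩)), fun h => absurd h hx⟩
  choose g hg1 hg2 using h1
  let E := D.equivFinOfCardEq hD'
  refine Nat.sInf_le ⟨fun x => E (g x), ?_, ?_⟩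
  · intro i
    refine ⟨((E.symm i : D) : Fin n → ZMod 2), ?_⟩
    have : g ((E.symm i : D) : Fin n → ZMod 2) = E.symm i := Subtype.ext (hg2 _ (E.symm i).2)
    show E (g ((E.symm i : D) : Fin n → ZMod 2)) = i
    rw [this, Equiv.apply_symm_apply]
  · intro i
    refine ball_mv ((E.symm i : D) : Fin n → ZMod 2) ?_
    intro x hx
    have hx' : E (g x) = i := hx
    have h2 : g x = E.symm i := by rw [← hx', Equiv.symm_apply_apply]
    rw [← h2]
    exact hg1 x

end Pool.Agent.H2.MVQ
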