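import Pool.Agent.H2.MVQ.Fam

/-! Row Cls.  Classification.  `M` is a set of points of the cube such that any two different points `u`, `v`
are at distance 1, or at distance 2 with one of the two common neighbours outside `M` (this is the conclusion
of row MVout).  Then `M` lies in a ball or in a tetrahedron.

Proof.  Case B: no two points of `M` are at distance 1: row Fam (`fam`).
Case A: `u, v = u + e i ∈ M`.  Claim: every `x ∈ M` lies in `ball u` or in `ball v`: if `x ≠ u` and `x ≠ v`
and neither `x = u + e a` nor `x = v + e a`, then `x = u + e a + e b` (`a ≠ b`) and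
`x = v + e c + e d = u + e i + e c + e d` (`c ≠ d`), so `e a + e b + e i + e c + e d = 0`: impossible by
parity (sum of all coordinates in `ZMod 2`: five unit vectors have sum 1; `∑ t, e a t = 1`).
If all of `M` lies in `ball u`, or all in `ball v`: done.  Otherwise there are `x ∈ M \ ball u` (so
`x = v + e b`, `x ≠ v, u`) and `y ∈ M \ ball v` (so `y = u + e a`, `y ≠ u, v`).  Then `a ≠ i`
(`y ≠ v`), `b ≠ i` (`x ≠ u`).  `x` and `y` are at odd distance: `y + x = e a + e i + e b`; the alternative
`distance 2` is impossible by the same parity argument; so `e a + e i + e b = e c`, which forces `a = b`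
(evaluate at `i`, then `c = i` as `a, b ≠ i`; so `e a + e b = 0`, `a = b`).  So `x = u + e i + e a`, and
`u`, `x` have exactly the common neighbours `u + e i = v` and `u + e a = y`, both in `M`.
Apply the hypothesis to `u, x`: distance 1 is impossible (`e i + e a ≠ e c` by parity); the other alternative
gives `i' ≠ j'` with `e i + e a = e i' + e j'` and `u + e i' ∉ M`; evaluate: `{i',j'} = {i,a}`, so
`u + e i'` is `v` or `y`, which are in `M`: contradiction. -/

namespace Pool.Agent.H2.MVQ

def Cls_W {n : ℕ} (x : Fin n → ZMod 2) : ZMod 2 := ∑ t, x t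

theorem Cls_add {n : ℕ} (x y : Fin n → ZMod 2) : Cls_W (x + y) = Cls_W x + Cls_W y := by
  unfold Cls_W
  rw [← Finset.sum_add_distrib]
  rfl

theorem Cls_e {n : ℕ} (i : Fin n) : Cls_W (e i) = 1 := by
  unfold Cls_W
  simp [e_apply]

theorem Cls_two : ∀ w : ZMod 2, w + 1 + 1 = w := by decide

theorem Cls_one : ∀ w : ZMod 2, w + 1 ≠ w := by decide

theorem cls {n : ℕ} {M : Set (Fin n → ZMod 2)}
    (h : ∀ u ∈ M, ∀ v ∈ M, u ≠ v →
      (∃ i, v = u + e i) ∨ ∃ i j, i ≠ j ∧ v = u + e i + e j ∧ u + e i ∉ M) :
    (∃ c, ∀ x ∈ M, x ∈ ball c) ∨ ∃ T, IsTet T ∧ ∀ x ∈ M, x ∈ T := by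
  by_cases hA : ∃ u ∈ M, ∃ i, u + e i ∈ M
  · obtain ⟨u, hu, i, hv⟩ := hA
    left
    by_cases h1 : ∀ x ∈ M, x ∈ ball u
    · exact ⟨u, h1⟩
    by_cases h2 : ∀ x ∈ M, x ∈ ball (u + e i)
    · exact ⟨_, h2⟩
    exfalso
    push Not at h1 h2
    obtain ⟨x, hx, hxu⟩ := h1
    obtain ⟨y, hy, hyv⟩ := h2
    have wv : Cls_W (u + e i) = Cls_W u + 1 := by rw [Cls_add, Cls_e]
    have hxv : x ≠ u + e i := by
      rintro rfl
      exact hxu (add_e_mem_ball u i)
    have hxu' : x ≠ u := by
      rintro rfl
      exact hxu (self_mem_ball _)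
    have hyv' : y ≠ u + e i := by
      rintro rfl
      exact hyv (self_mem_ball _)
    have hyu : y ≠ u := by
      rintro rfl
      exact hyv (mem_ball_comm.1 (add_e_mem_ball _ i))
    -- parity of x and y
    have wx : Cls_W x = Cls_W u := by
      rcases h u hu x hx hxu'.symm with ⟨a, ha⟩ | ⟨a, b, -, hab, -⟩
      · exact absurd (mem_ball.2 (Or.inr ⟨a, ha⟩)) hxu
      · rw [hab, Cls_add, Cls_add, Cls_e, Cls_e, Cls_two]
    have wy : Cls_W y = Cls_W u + 1 := by
      rcases h _ hv y hy hyv'.symm with ⟨a, ha⟩ | ⟨a, b, -, hab, -⟩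
      · exact absurd (mem_ball.2 (Or.inr ⟨a, ha⟩)) hyv
      · rw [hab, Cls_add, Cls_add, Cls_e, Cls_e, wv, Cls_two]
    obtain ⟨b, hb⟩ : ∃ b, x = u + e i + e b := by
      rcases h _ hv x hx hxv.symm with hc | ⟨c, d, -, hcd, -⟩
      · exact hc
      · exfalso
        have h3 := congrArg Cls_W hcd
        rw [Cls_add, Cls_add, Cls_e, Cls_e, wv, wx, Cls_two] at h3
        exact Cls_one _ h3.symm
    obtain ⟨a, ha⟩ : ∃ a, y = u + e a := by
      rcases h u hu y hy hyu.symm with hc | ⟨c, d, -, hcd, -⟩
      · exact hc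
      · exfalso
        have h3 := congrArg Cls_W hcd
        rw [Cls_add, Cls_add, Cls_e, Cls_e, wy, Cls_two] at h3
        exact Cls_one _ h3
    have hai : a ≠ i := by
      rintro rfl
      exact hyv' ha
    have hbi : b ≠ i := by
      rintro rfl
      rw [add_add_cancel] at hb
      exact hxu' hb
    have hxy : x ≠ y := by
      intro hxy
      rw [hxy, wy] at wx
      exact Cls_one _ wx
    obtain ⟨c, hc⟩ : ∃ c, y = x + e c := by
      rcases h x hx y hy hxy with hc | ⟨c, d, -, hcd, -⟩
      · exact hc
      · exfalso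
        have h3 := congrArg Cls_W hcd
        rw [Cls_add, Cls_add, Cls_e, Cls_e, wy, wx, Cls_two] at h3
        exact Cls_one _ h3
    have h4 : e a = e i + e b + e c := by
      have h5 : u + e a = u + (e i + e b + e c) := by
        rw [← ha, hc, hb]
        simp only [add_assoc]
      exact add_left_cancel h5
    have hci : c = i := by
      by_contra hci
      have h6 := congrFun h4 i
      simp only [Pi.add_apply, e_apply, if_neg (Ne.symm hai), if_neg (Ne.symm hbi),
        if_neg (Ne.symm hci), if_true, add_zero] at h6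
      exact zero_ne_one h6
    have hab : a = b := by
      rw [hci] at h4
      have h7 : e i + e b + e i = e b := by
        rw [add_comm (e i) (e b), add_add_cancel]
      rw [h7] at h4
      exact e_inj.1 h4
    rcases h u hu x hx hxu'.symm with ⟨a', ha'⟩ | ⟨i', j', hij, hx2, hn⟩
    · exact hxu (mem_ball.2 (Or.inr ⟨a', ha'⟩))
    · have h8 : e i + e a = e i' + e j' := by
        have h9 : u + (e i + e a) = u + (e i' + e j') := by
          rw [← add_assoc, ← add_assoc, ← hx2, hb, hab]
        exact add_left_cancel h9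
      by_cases hi1 : i' = i
      · rw [hi1] at hn
        exact hn hv
      · by_cases hi2 : i' = a
        · rw [hi2, ← ha] at hn
          exact hn hy
        · have h6 := congrFun h8 i'
          simp only [Pi.add_apply, e_apply, if_neg hi1, if_neg hi2, if_neg hij, if_true,
            add_zero] at h6
          exact zero_ne_one h6
  · push Not at hA
    refine fam fun u hu v hv huv => ?_
    rcases h u hu v hv huv with ⟨i, hi⟩ | ⟨i, j, hij, hv2, -⟩
    · exfalso
      rw [hi] at hv
      exact hA u hu i hv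
    · exact ⟨i, j, hij, hv2⟩

end Pool.Agent.H2.MVQ
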