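import Mathlib

/-!
MP_6c2603_co: 2-distance mutual-visibility colourings of hypercubes.  Definitions.

Plan of the proof.  Write `V n = Fin n → ZMod 2`, `e i` for the i-th unit vector.
(1) A 2-distance mutual-visibility set of the n-cube is a subset of a closed ball of radius 1 or of a
    tetrahedron `tet p i j k` (even half of a 3-subcube).
(2) So a colouring with m colours gives a cover by `C.card` balls and `TT.card` tetrahedra,
    `C.card + TT.card ≤ m`.  With the least number of tetrahedra, no point of a tetrahedron is covered twice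
    (three points of a tetrahedron lie in a ball).
(3) For even n the excess argument of van Wee, with tetrahedra:
    `n * 2 ^ n ≤ n ^ 2 * C.card + 8 * (n - 1) * TT.card`.
(4) Hamming codes: `dom (Q n) * 2 ^ k ≤ 2 ^ n` when `2 ^ k ≤ n + 1`.
-/

namespace Pool.Agent.H2.MVQ

/-- The `n`-cube: vertices are the 0-1 vectors of length `n`, adjacent when they differ in exactly one
coordinate. -/
def Q (n : ℕ) : SimpleGraph (Fin n → ZMod 2) where
  Adj x y := ∃! i, x i ≠ y i
  symm := ⟨by
    intro x y h
    obtain ⟨i, hi, hu⟩ := h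
    exact ⟨i, fun h => hi h.symm, fun j hj => hu j (fun h => hj h.symm)⟩⟩
  loopless := ⟨by
    intro x h
    obtain ⟨i, hi, _⟩ := h
    exact hi rfl⟩

/-- A 2-distance mutual-visibility set: any two of its points are joined by a shortest path of length at
most 2 without internal vertices in the set. -/
def IsMV2 {V : Type*} (G : SimpleGraph V) (M : Set V) : Prop :=
  ∀ u ∈ M, ∀ v ∈ M, ∃ p : G.Walk u v, p.length = G.dist u v ∧ p.length ≤ 2 ∧
    ∀ w ∈ p.support, w ≠ u → w ≠ v → w ∉ M

/-- The 2-distance mutual-visibility chromatic number: the least number of parts in a partition of the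
vertex set into 2-distance mutual-visibility sets. -/
noncomputable def chi {V : Type*} (G : SimpleGraph V) : ℕ :=
  sInf {k | ∃ f : V → Fin k, Function.Surjective f ∧ ∀ i, IsMV2 G (f ⁻¹' {i})}

/-- The domination number: the least size of a dominating set. -/
noncomputable def dom {V : Type*} (G : SimpleGraph V) : ℕ :=
  sInf {k | ∃ D : Finset V, D.card = k ∧ ∀ v, v ∉ D → ∃ u ∈ D, G.Adj v u}

/-- unit vector -/
def e {n : ℕ} (i : Fin n) : Fin n → ZMod 2 := Pi.single i 1

/-- closed ball of radius 1 -/
def ball {n : ℕ} (x : Fin n → ZMod 2) : Finset (Fin n → ZMod 2) :=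
  Finset.univ.filter fun y => y = x ∨ ∃ i, y = x + e i

/-- tetrahedron: the points at even distance from `p` in the 3-subcube at `p` with directions `i j k` -/
def tet {n : ℕ} (p : Fin n → ZMod 2) (i j k : Fin n) : Finset (Fin n → ZMod 2) :=
  {p, p + e i + e j, p + e i + e k, p + e j + e k}

/-- `T` is a tetrahedron -/
def IsTet {n : ℕ} (T : Finset (Fin n → ZMod 2)) : Prop :=
  ∃ p : Fin n → ZMod 2, ∃ i j k : Fin n, i ≠ j ∧ i ≠ k ∧ j ≠ k ∧ T = tet p i j k

/-- cover of the cube by the balls with centres in `C` and the tetrahedra in `TT` -/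
def IsCover {n : ℕ} (C : Finset (Fin n → ZMod 2)) (TT : Finset (Finset (Fin n → ZMod 2))) : Prop :=
  (∀ T ∈ TT, IsTet T) ∧ ∀ x, (∃ c ∈ C, x ∈ ball c) ∨ ∃ T ∈ TT, x ∈ T

/-- the points of the tetrahedra are covered exactly once -/
def IsSharp {n : ℕ} (C : Finset (Fin n → ZMod 2)) (TT : Finset (Finset (Fin n → ZMod 2))) : Prop :=
  ∀ T ∈ TT, ∀ x ∈ T, (∀ c ∈ C, x ∉ ball c) ∧ ∀ T' ∈ TT, T' ≠ T → x ∉ T'

end Pool.Agent.H2.MVQ
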