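import Pool.Agent.H2.MVQ.Bas

/-! Row DomLe.  Counting, and covers give dominating sets.

(a) `2 ^ n ≤ (n + 1) C.card + 4 TT.card` for every cover: the cube is the union of the balls and the
tetrahedra (`Finset.card_union_le`, `Finset.card_biUnion_le_card_mul`, `card_ball`, `card_tet_le`, `card_cube`).
(b) `dom (Q n) ≤ C.card + 2 TT.card`: the tetrahedron `tet p i j k` is contained in
`ball (p + e i) ∪ ball (p + e j + e k)`; so `D = C ∪ TT.image o₁ ∪ TT.image o₂` (chosen centres) is dominating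
(`mem_ball`, `mem_ball_comm`, `adj_iff`), `Nat.sInf_le`. -/

namespace Pool.Agent.H2.MVQ

theorem count {n : ℕ} {C : Finset (Fin n → ZMod 2)} {TT : Finset (Finset (Fin n → ZMod 2))}
    (h : IsCover C TT) : 2 ^ n ≤ (n + 1) * C.card + 4 * TT.card := by
  classical
  obtain ⟨hT, hc⟩ := h
  have h1 : (Finset.univ : Finset (Fin n → ZMod 2)) ⊆ C.biUnion ball ∪ TT.biUnion id := by
    intro x _
    rw [Finset.mem_union, Finset.mem_biUnion, Finset.mem_biUnion]
    rcases hc x with ⟨c, hc, hx⟩ | ⟨T, hT, hx⟩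
    · exact Or.inl ⟨c, hc, hx⟩
    · exact Or.inr ⟨T, hT, hx⟩
  have h2 := Finset.card_le_card h1
  have h3 : (Finset.univ : Finset (Fin n → ZMod 2)).card = 2 ^ n := by
    rw [Finset.card_univ]; exact card_cube
  have h4 := Finset.card_union_le (C.biUnion ball) (TT.biUnion id)
  have h5 : (C.biUnion ball).card ≤ C.card * (n + 1) :=
    Finset.card_biUnion_le_card_mul _ _ _ (fun c _ => (card_ball c).le)
  have h6 : (TT.biUnion id).card ≤ TT.card * 4 := by
    refine Finset.card_biUnion_le_card_mul _ _ _ (fun T hTT => ?_)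
    obtain ⟨p, i, j, k, _, _, _, rfl⟩ := hT T hTT
    exact card_tet_le p i j k
  rw [mul_comm (n + 1), mul_comm 4]
  omega

theorem DomLe_adj {n : ℕ} {D : Finset (Fin n → ZMod 2)} {v c : Fin n → ZMod 2} (hv : v ∉ D)
    (hc : c ∈ D) (h : v ∈ ball c) : ∃ u ∈ D, (Q n).Adj v u := by
  rw [mem_ball_comm, mem_ball] at h
  rcases h with h | ⟨i, h⟩
  · exact absurd (h ▸ hc) hv
  · exact ⟨c, hc, (adj_iff v c).2 ⟨i, h⟩⟩

theorem dom_le {n : ℕ} {C : Finset (Fin n → ZMod 2)} {TT : Finset (Finset (Fin n → ZMod 2))}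
    (h : IsCover C TT) : dom (Q n) ≤ C.card + 2 * TT.card := by
  classical
  obtain ⟨hT, hc⟩ := h
  have h1 : ∀ T : Finset (Fin n → ZMod 2), ∃ a b : Fin n → ZMod 2, T ∈ TT →
      ∀ x ∈ T, x ∈ ball a ∨ x ∈ ball b := by
    intro T
    by_cases hTT : T ∈ TT
    · obtain ⟨p, i, j, k, _, _, _, rfl⟩ := hT T hTT
      refine ⟨p + e i, p + e j + e k, fun _ x hx => ?_⟩
      rw [mem_tet] at hx
      rcases hx with rfl | rfl | rfl | rfl
      · left
        rw [mem_ball_comm]
        exact add_e_mem_ball _ _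
      · left; exact add_e_mem_ball _ _
      · left; exact add_e_mem_ball _ _
      · right; exact self_mem_ball _
    · exact ⟨0, 0, fun h => absurd h hTT⟩
  choose o1 o2 ho using h1
  have h2 : (C ∪ (TT.image o1 ∪ TT.image o2)).card ≤ C.card + 2 * TT.card := by
    have a1 := Finset.card_union_le C (TT.image o1 ∪ TT.image o2)
    have a2 := Finset.card_union_le (TT.image o1) (TT.image o2)
    have a3 := Finset.card_image_le (s := TT) (f := o1)
    have a4 := Finset.card_image_le (s := TT) (f := o2)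
    omega
  refine le_trans (Nat.sInf_le ⟨C ∪ (TT.image o1 ∪ TT.image o2), rfl, ?_⟩) h2
  intro v hv
  rcases hc v with ⟨c, hcC, hx⟩ | ⟨T, hTT, hx⟩
  · exact DomLe_adj hv (Finset.mem_union_left _ hcC) hx
  · rcases ho T hTT v hx with h3 | h3
    · exact DomLe_adj hv (Finset.mem_union_right _ (Finset.mem_union_left _
        (Finset.mem_image_of_mem _ hTT))) h3
    · exact DomLe_adj hv (Finset.mem_union_right _ (Finset.mem_union_right _
        (Finset.mem_image_of_mem _ hTT))) h3

end Pool.Agent.H2.MVQ
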