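import Pool.Agent.H2.MVQ.Bas

/-! Row Zone.  The closed neighbourhood of a tetrahedron has at most `4 (n - 1)` points.

Proof.  `T = tet p i j k`, with `i, j, k` different, so `n ≥ 3`.  Let
`F = {p, p + e i, p + e j, p + e k, p + e i + e j, p + e i + e k, p + e j + e k, p + e i + e j + e k}`
(8 points at most) and `Z = F ∪ ⋃ l ∉ {i,j,k}, (T.image (· + e l))`, of size at most `8 + 4 (n - 3)`
(`Finset.card_biUnion_le_card_mul`, `Finset.card_image_le`, `card_tet_le`;
`(univ \ {i,j,k}).card = n - 3`).  If `x ∉ Z` then no point of `T` is in `ball x`: if `y ∈ T`, `y ∈ ball x`,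
then `x = y ∈ T ⊆ F` or `x = y + e l`; for `l ∉ {i,j,k}` this is in the union; for `l ∈ {i,j,k}` it is in
`F` (12 cases; `abel` and `add_self`). -/

namespace Pool.Agent.H2.MVQ

theorem Zone_mem {n : ℕ} (p : Fin n → ZMod 2) (i j k : Fin n) {y : Fin n → ZMod 2}
    (hy : y ∈ tet p i j k) {l : Fin n} (hl : l = i ∨ l = j ∨ l = k) :
    y + e l ∈ ({p + e i, p + e j, p + e k, p + e i + e j + e k} : Finset (Fin n → ZMod 2)) := by
  have hi := add_self (e i)
  have hj := add_self (e j)
  have hk := add_self (e k)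
  simp only [Finset.mem_insert, Finset.mem_singleton]
  rcases mem_tet.1 hy with rfl | rfl | rfl | rfl
  · rcases hl with rfl | rfl | rfl
    · exact Or.inl rfl
    · exact Or.inr (Or.inl rfl)
    · exact Or.inr (Or.inr (Or.inl rfl))
  · rcases hl with rfl | rfl | rfl
    · exact Or.inr (Or.inl (by linear_combination hi))
    · exact Or.inl (by linear_combination hj)
    · exact Or.inr (Or.inr (Or.inr rfl))
  · rcases hl with rfl | rfl | rfl
    · exact Or.inr (Or.inr (Or.inl (by linear_combination hi)))
    · exact Or.inr (Or.inr (Or.inr (by ring)))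
    · exact Or.inl (by linear_combination hk)
  · rcases hl with rfl | rfl | rfl
    · exact Or.inr (Or.inr (Or.inr (by ring)))
    · exact Or.inr (Or.inr (Or.inl (by linear_combination hj)))
    · exact Or.inr (Or.inl (by linear_combination hk))

theorem zone {n : ℕ} {T : Finset (Fin n → ZMod 2)} (h : IsTet T) :
    3 ≤ n ∧ ∃ Z : Finset (Fin n → ZMod 2), Z.card ≤ 4 * (n - 1) ∧ ∀ x, x ∉ Z → ball x ∩ T = ∅ := by
  classical
  obtain ⟨p, i, j, k, hij, hik, hjk, rfl⟩ := h
  have h3 : ({i, j, k} : Finset (Fin n)).card = 3 := Finset.card_eq_three.2 ⟨i, j, k, hij, hik, hjk, rfl⟩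
  have hn : 3 ≤ n := by
    have h4 := Finset.card_le_univ ({i, j, k} : Finset (Fin n))
    rw [h3, Fintype.card_fin] at h4
    exact h4
  refine ⟨hn, (tet p i j k ∪ {p + e i, p + e j, p + e k, p + e i + e j + e k}) ∪
    (Finset.univ \ {i, j, k}).biUnion (fun l => (tet p i j k).image (· + e l)), ?_, ?_⟩
  · have h5 : ((Finset.univ \ {i, j, k}).biUnion
        (fun l => (tet p i j k).image (· + e l))).card ≤ (n - 3) * 4 := by
      refine (Finset.card_biUnion_le_card_mul _ _ 4 fun l _ => ?_).trans ?_
      · exact Finset.card_image_le.trans (card_tet_le p i j k)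
      · rw [Finset.card_sdiff_of_subset (Finset.subset_univ _), h3, Finset.card_univ, Fintype.card_fin]
    have h6 : ({p + e i, p + e j, p + e k, p + e i + e j + e k} :
        Finset (Fin n → ZMod 2)).card ≤ 4 := Finset.card_le_four
    have h7 := Finset.card_union_le (tet p i j k ∪ {p + e i, p + e j, p + e k, p + e i + e j + e k})
      ((Finset.univ \ {i, j, k}).biUnion (fun l => (tet p i j k).image (· + e l)))
    have h8 := Finset.card_union_le (tet p i j k)
      {p + e i, p + e j, p + e k, p + e i + e j + e k}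
    have h9 := card_tet_le p i j k
    omega
  · intro x hx
    rw [Finset.eq_empty_iff_forall_notMem]
    intro y hy
    rw [Finset.mem_inter] at hy
    obtain ⟨hy1, hy2⟩ := hy
    apply hx
    rw [Finset.mem_union, Finset.mem_union]
    rcases mem_ball.1 (mem_ball_comm.1 hy1) with rfl | ⟨l, rfl⟩
    · exact Or.inl (Or.inl hy2)
    · by_cases hl : l = i ∨ l = j ∨ l = k
      · exact Or.inl (Or.inr (Zone_mem p i j k hy2 hl))
      · right
        rw [Finset.mem_biUnion]
        refine ⟨l, ?_, Finset.mem_image.2 ⟨y, hy2, rfl⟩⟩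
        rw [Finset.mem_sdiff]
        refine ⟨Finset.mem_univ _, ?_⟩
        simpa using hl

end Pool.Agent.H2.MVQ
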