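import Pool.Agent.H2.MVQ.BallBall
import Pool.Agent.H2.MVQ.Zone

/-! Row Excess.  The van Wee bound for covers by balls and tetrahedra, `n` even. -/

namespace Pool.Agent.H2.MVQ

/-- multiplicity of the cover at `y` -/
def mlt {n : ℕ} (C : Finset (Fin n → ZMod 2)) (TT : Finset (Finset (Fin n → ZMod 2)))
    (y : Fin n → ZMod 2) : ℕ :=
  (C.filter (fun c => y ∈ ball c)).card + (TT.filter (fun T => y ∈ T)).card

theorem sum_mlt {n : ℕ} (C : Finset (Fin n → ZMod 2)) (TT : Finset (Finset (Fin n → ZMod 2)))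
    (A : Finset (Fin n → ZMod 2)) :
    ∑ y ∈ A, mlt C TT y = ∑ c ∈ C, (A ∩ ball c).card + ∑ T ∈ TT, (A ∩ T).card := by
  unfold mlt
  rw [Finset.sum_add_distrib]
  congr 1
  · simp only [Finset.card_filter]
    rw [Finset.sum_comm]
    apply Finset.sum_congr rfl
    intro c _
    rw [← Finset.card_filter, Finset.filter_mem_eq_inter]
  · simp only [Finset.card_filter]
    rw [Finset.sum_comm]
    apply Finset.sum_congr rfl
    intro c _
    rw [← Finset.card_filter, Finset.filter_mem_eq_inter]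

theorem mlt_pos {n : ℕ} {C : Finset (Fin n → ZMod 2)} {TT : Finset (Finset (Fin n → ZMod 2))}
    (h : IsCover C TT) (y : Fin n → ZMod 2) : 1 ≤ mlt C TT y := by
  unfold mlt
  rcases h.2 y with ⟨c, hc, hy⟩ | ⟨T, hT, hy⟩
  · have : 0 < (C.filter (fun c => y ∈ ball c)).card :=
      Finset.card_pos.2 ⟨c, Finset.mem_filter.2 ⟨hc, hy⟩⟩
    omega
  · have : 0 < (TT.filter (fun T => y ∈ T)).card :=
      Finset.card_pos.2 ⟨T, Finset.mem_filter.2 ⟨hT, hy⟩⟩
    omega

/-- weight estimate at one point -/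
theorem point_bound {n : ℕ} {C : Finset (Fin n → ZMod 2)} {TT : Finset (Finset (Fin n → ZMod 2))}
    (h : IsCover C TT) (hs : IsSharp C TT) (y : Fin n → ZMod 2) :
    ((mlt C TT y : ℤ) - 1) * ((Cᶜ.filter (fun x => y ∈ ball x)).card : ℤ) ≤
      ((n : ℤ) - 1) * ((mlt C TT y : ℤ) - 1) := by
  have h1 := mlt_pos h y
  rcases Nat.eq_or_lt_of_le h1 with h2 | h2
  · rw [← h2]; simp
  · have hT : (TT.filter (fun T => y ∈ T)).card = 0 := by
      by_contra hne
      obtain ⟨T, hT⟩ := Finset.card_pos.1 (Nat.pos_of_ne_zero hne)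
      rw [Finset.mem_filter] at hT
      have h3 := hs T hT.1 y hT.2
      have h4 : (C.filter (fun c => y ∈ ball c)).card = 0 := by
        rw [Finset.card_eq_zero, Finset.filter_eq_empty_iff]
        intro c hc
        exact h3.1 c hc
      have h5 : (TT.filter (fun T => y ∈ T)).card ≤ 1 := by
        rw [Finset.card_le_one]
        intro A hA B hB
        rw [Finset.mem_filter] at hA hB
        have hA' : A = T := by
          by_contra hne'
          exact h3.2 A hA.1 hne' hA.2
        have hB' : B = T := by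
          by_contra hne'
          exact h3.2 B hB.1 hne' hB.2
        rw [hA', hB']
      unfold mlt at h2
      omega
    have hC : 2 ≤ (C.filter (fun c => y ∈ ball c)).card := by
      unfold mlt at h2
      omega
    have hsum : (C.filter (fun c => y ∈ ball c)).card + (Cᶜ.filter (fun x => y ∈ ball x)).card =
        n + 1 := by
      rw [← card_ball y, ← Finset.card_union_of_disjoint]
      · congr 1
        ext x
        simp only [Finset.mem_union, Finset.mem_filter, Finset.mem_compl]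
        rw [mem_ball_comm (x := y)]
        tauto
      · rw [Finset.disjoint_left]
        intro x hx hx'
        rw [Finset.mem_filter] at hx hx'
        exact (Finset.mem_compl.1 hx'.1) hx.1
    have h6 : ((Cᶜ.filter (fun x => y ∈ ball x)).card : ℤ) ≤ (n : ℤ) - 1 := by
      have : (Cᶜ.filter (fun x => y ∈ ball x)).card + 2 ≤ n + 1 := by omega
      have h7 : ((Cᶜ.filter (fun x => y ∈ ball x)).card : ℤ) + 2 ≤ (n : ℤ) + 1 := by exact_mod_cast this
      linarith
    have h8 : (0 : ℤ) ≤ (mlt C TT y : ℤ) - 1 := by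
      have : (1 : ℤ) ≤ mlt C TT y := by exact_mod_cast h1
      linarith
    rw [mul_comm]
    exact mul_le_mul_of_nonneg_right h6 h8

theorem excess {n : ℕ} (hn : Even n) {C : Finset (Fin n → ZMod 2)}
    {TT : Finset (Finset (Fin n → ZMod 2))} (h : IsCover C TT) (hs : IsSharp C TT) :
    (n : ℤ) * 2 ^ n ≤ (n : ℤ) ^ 2 * C.card + 8 * ((n : ℤ) - 1) * TT.card := by
  classical
  rcases Nat.eq_zero_or_pos n with hn0 | hn0
  · subst hn0
    have h0 : TT = ∅ := by
      by_contra hne
      obtain ⟨T, hT⟩ := Finset.nonempty_iff_ne_empty.2 hne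
      have := (zone (h.1 T hT)).1
      omega
    subst h0
    simp
  -- zones
  choose! Z hZc hZ using fun T (hT : T ∈ TT) => (zone (h.1 T hT)).2
  set U : Finset (Fin n → ZMod 2) := C ∪ TT.biUnion Z with hU
  have hUc : (U.card : ℤ) ≤ C.card + 4 * ((n : ℤ) - 1) * TT.card := by
    have h1 : U.card ≤ C.card + TT.card * (4 * (n - 1)) := by
      refine (Finset.card_union_le _ _).trans ?_
      have := Finset.card_biUnion_le_card_mul TT Z (4 * (n - 1)) hZc
      omega
    have h2 : ((n - 1 : ℕ) : ℤ) = (n : ℤ) - 1 := by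
      rw [Nat.cast_sub hn0]; simp
    have h3 : (U.card : ℤ) ≤ C.card + TT.card * (4 * ((n - 1 : ℕ) : ℤ)) := by exact_mod_cast h1
    rw [h2] at h3
    linarith
  have hodd : ∀ x, x ∉ U → (1 : ℤ) ≤ ∑ y ∈ ball x, ((mlt C TT y : ℤ) - 1) := by
    intro x hx
    have hxC : x ∉ C := fun hc => hx (Finset.mem_union_left _ hc)
    have hxT : ∀ T ∈ TT, x ∉ Z T := fun T hT hz =>
      hx (Finset.mem_union_right _ (Finset.mem_biUnion.2 ⟨T, hT, hz⟩))
    have hev : Even (∑ y ∈ ball x, mlt C TT y) := by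
      rw [sum_mlt]
      apply Even.add
      · apply Finset.even_sum
        intro c hc
        exact even_ball_inter (fun hxc => hxC (hxc ▸ hc))
      · apply Finset.even_sum
        intro T hT
        rw [hZ T hT x (hxT T hT)]
        simp
    have hnn : (0 : ℤ) ≤ ∑ y ∈ ball x, ((mlt C TT y : ℤ) - 1) := by
      apply Finset.sum_nonneg
      intro y _
      have : (1 : ℤ) ≤ mlt C TT y := by exact_mod_cast mlt_pos h y
      linarith
    have heq : ∑ y ∈ ball x, ((mlt C TT y : ℤ) - 1) = ((∑ y ∈ ball x, mlt C TT y : ℕ) : ℤ) - (n + 1) := by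
      rw [Finset.sum_sub_distrib]
      push_cast
      simp [card_ball]
    obtain ⟨r, hr⟩ := hev
    obtain ⟨q, hq⟩ := hn
    rw [heq, hr] at hnn ⊢
    rw [hq] at hnn ⊢
    push_cast at hnn ⊢
    omega
  have hnn : ∀ x, (0 : ℤ) ≤ ∑ y ∈ ball x, ((mlt C TT y : ℤ) - 1) := by
    intro x
    apply Finset.sum_nonneg
    intro y _
    have : (1 : ℤ) ≤ mlt C TT y := by exact_mod_cast mlt_pos h y
    linarith
  -- lower bound
  have hlow : (2 : ℤ) ^ n - U.card ≤ ∑ x ∈ Cᶜ, ∑ y ∈ ball x, ((mlt C TT y : ℤ) - 1) := by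
    have h1 : (2 : ℤ) ^ n - U.card = (Uᶜ.card : ℤ) := by
      rw [Finset.card_compl, Nat.cast_sub (Finset.card_le_univ U), card_cube]
      push_cast
      ring
    rw [h1]
    calc (Uᶜ.card : ℤ) = ∑ _x ∈ Uᶜ, (1 : ℤ) := by simp
      _ ≤ ∑ x ∈ Uᶜ, ∑ y ∈ ball x, ((mlt C TT y : ℤ) - 1) :=
          Finset.sum_le_sum fun x hx => hodd x (Finset.mem_compl.1 hx)
      _ ≤ ∑ x ∈ Cᶜ, ∑ y ∈ ball x, ((mlt C TT y : ℤ) - 1) := by
          apply Finset.sum_le_sum_of_subset_of_nonneg
          · intro x hx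
            rw [Finset.mem_compl] at hx ⊢
            exact fun hc => hx (Finset.mem_union_left _ hc)
          · intro x _ _
            exact hnn x
  -- upper bound
  have hup : ∑ x ∈ Cᶜ, ∑ y ∈ ball x, ((mlt C TT y : ℤ) - 1) ≤
      ((n : ℤ) - 1) * ∑ y, ((mlt C TT y : ℤ) - 1) := by
    have h1 : ∑ x ∈ Cᶜ, ∑ y ∈ ball x, ((mlt C TT y : ℤ) - 1) =
        ∑ y, ((mlt C TT y : ℤ) - 1) * ((Cᶜ.filter (fun x => y ∈ ball x)).card : ℤ) := by
      have h2 : ∀ x, ∑ y ∈ ball x, ((mlt C TT y : ℤ) - 1) =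
          ∑ y, if y ∈ ball x then ((mlt C TT y : ℤ) - 1) else 0 := by
        intro x
        rw [← Finset.sum_filter]
        congr 1
        ext y
        simp
      simp_rw [h2]
      rw [Finset.sum_comm]
      apply Finset.sum_congr rfl
      intro y _
      rw [← Finset.sum_filter, Finset.sum_const, nsmul_eq_mul, mul_comm]
    rw [h1, Finset.mul_sum]
    exact Finset.sum_le_sum fun y _ => point_bound h hs y
  -- total
  have htot : ∑ y, ((mlt C TT y : ℤ) - 1) ≤ ((n : ℤ) + 1) * C.card + 4 * TT.card - 2 ^ n := by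
    have h1 : ∑ y, mlt C TT y ≤ (n + 1) * C.card + 4 * TT.card := by
      rw [sum_mlt]
      apply Nat.add_le_add
      · simp only [Finset.univ_inter, card_ball, Finset.sum_const, smul_eq_mul]
        rw [mul_comm]
      · simp only [Finset.univ_inter]
        calc ∑ T ∈ TT, T.card ≤ ∑ _T ∈ TT, 4 := by
              apply Finset.sum_le_sum
              intro T hT
              obtain ⟨p, i, j, k, -, -, -, rfl⟩ := h.1 T hT
              exact card_tet_le p i j k
          _ = 4 * TT.card := by simp [mul_comm]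
    have h2 : ((∑ y, mlt C TT y : ℕ) : ℤ) ≤ ((n : ℤ) + 1) * C.card + 4 * TT.card := by exact_mod_cast h1
    rw [Finset.sum_sub_distrib]
    push_cast at h2
    have h3 : ∑ _y : Fin n → ZMod 2, (1 : ℤ) = 2 ^ n := by
      simp [ZMod.card]
    rw [h3]
    linarith
  have hn1 : (0 : ℤ) ≤ (n : ℤ) - 1 := by
    have : (1 : ℤ) ≤ n := by exact_mod_cast hn0
    linarith
  have hfin := mul_le_mul_of_nonneg_left htot hn1
  have h9 : (2 : ℤ) ^ n - (C.card + 4 * ((n : ℤ) - 1) * TT.card) ≤
      ((n : ℤ) - 1) * (((n : ℤ) + 1) * C.card + 4 * TT.card - 2 ^ n) := by linarith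
  nlinarith

end Pool.Agent.H2.MVQ
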