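import Pool.Agent.H2.MVQ.Bas

/-! Row Fam.  Set version of: pairwise intersecting 2-sets form a star or a triangle.
`M` is a set of points of the cube, any two different points of which are at distance exactly 2 (form
`v = u + e i + e j`, `i ≠ j`).  Then `M` lies in a ball or in a tetrahedron.

Proof.  If `M` has at most one point: ball (empty `M`: any ball, e.g. `ball 0`; one point `u`: `ball u`).
Otherwise let `u, v ∈ M`, `v = u + e i + e j`, `i ≠ j`.  Every `x ∈ M`, `x ≠ u`, is `u + e a + e b`, `a ≠ b`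
(hypothesis), and if `x ≠ v` then `x - v` is again a sum of two different unit vectors, so `{a,b}` meets
`{i,j}` in exactly one element (evaluate at coordinates, or: the sum of the four unit vectors
`e a + e b + e i + e j` is `e c + e d` with `c ≠ d`; if `{a,b}` and `{i,j}` were disjoint the left side
would have four nonzero coordinates).  So every `x ∈ M`, `x ≠ u, v` is `u + e i + e a` or `u + e j + e a`
with `a ∉ {i,j}`.  If no `x` of the second kind exists then `M ⊆ ball (u + e i)`.  If no `x` of the first kind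
exists then `M ⊆ ball (u + e j)`.  If `x = u + e i + e a`, `y = u + e j + e b` both exist then `x ≠ y`
and `x - y = e i + e a + e j + e b` is a sum of two different unit vectors, so `a = b` (`a, b ∉ {i,j}`);
so all points of `M` other than `u, v` are `u + e i + e a` or `u + e j + e a` with this same `a`
(compare every other point of the first kind with `y` and every other point of the second kind with `x`):
`M ⊆ tet u i j a`.

Suggested tool (prove first): `fourSum : a ≠ b → i ≠ j → a ≠ i → a ≠ j → b ≠ i → b ≠ j → c ≠ d →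
e a + e b + e i + e j ≠ e c + e d` (evaluate at a, b, i, j: at least one of them is neither c nor d). -/

namespace Pool.Agent.H2.MVQ

theorem Fam_coord {n : ℕ} {c d i : Fin n} (h : (e c + e d) i ≠ 0) : i = c ∨ i = d := by
  by_contra hcon
  rw [not_or] at hcon
  apply h
  simp only [Pi.add_apply, e_apply, if_neg hcon.1, if_neg hcon.2, add_zero]

theorem Fam_pair {n : ℕ} {i j c d : Fin n} (hij : i ≠ j) (hi : i = c ∨ i = d)
    (hj : j = c ∨ j = d) : e c + e d = e i + e j := by
  rcases hi with rfl | rfl <;> rcases hj with rfl | rfl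
  · exact absurd rfl hij
  · rfl
  · exact add_comm _ _
  · exact absurd rfl hij

/-- the four unit vectors cannot cancel -/
theorem Fam_four {n : ℕ} {a b i j c d : Fin n} (hab : a ≠ b) (hij : i ≠ j)
    (h : e a + e b = e i + e j + (e c + e d)) : a = i ∨ a = j ∨ b = i ∨ b = j := by
  by_contra hcon
  simp only [not_or] at hcon
  obtain ⟨h1, h2, h3, h4⟩ := hcon
  have h5 : e c + e d = e i + e j + (e a + e b) := by
    rw [h, ← add_assoc, add_self, zero_add]
  have hi : (e c + e d) i ≠ 0 := by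
    rw [h5]
    simp only [Pi.add_apply, e_apply, if_true, if_neg hij, if_neg (Ne.symm h1),
      if_neg (Ne.symm h3), add_zero]
    decide
  have hj : (e c + e d) j ≠ 0 := by
    rw [h5]
    simp only [Pi.add_apply, e_apply, if_true, if_neg (Ne.symm hij), if_neg (Ne.symm h2),
      if_neg (Ne.symm h4), add_zero]
    decide
  have h6 := Fam_pair hij (Fam_coord hi) (Fam_coord hj)
  rw [h6, add_self] at h
  have h7 : e a = e b := by
    have : e a + e b + e b = 0 + e b := by rw [h]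
    rwa [add_add_cancel, zero_add] at this
  exact hab (e_inj.1 h7)

theorem Fam_ne {n : ℕ} {i j a b : Fin n} (hij : i ≠ j) (hai : a ≠ i) (hbi : b ≠ i) :
    e i + e a ≠ e j + e b := by
  intro h
  have h1 := congrFun h i
  simp only [Pi.add_apply, e_apply, if_true, if_neg hij, if_neg (Ne.symm hai),
    if_neg (Ne.symm hbi), add_zero] at h1
  exact absurd h1 (by decide)

theorem Fam_first {n : ℕ} {M : Set (Fin n → ZMod 2)}
    (h : ∀ u ∈ M, ∀ v ∈ M, u ≠ v → ∃ i j, i ≠ j ∧ v = u + e i + e j)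
    {u v : Fin n → ZMod 2} {i j : Fin n} (hu : u ∈ M) (hv : v ∈ M) (hij : i ≠ j)
    (hvu : v = u + e i + e j) (x : Fin n → ZMod 2) (hx : x ∈ M) (hxu : x ≠ u) (hxv : x ≠ v) :
    ∃ a, a ≠ i ∧ a ≠ j ∧ (x = u + e i + e a ∨ x = u + e j + e a) := by
  obtain ⟨a, b, hab, hxa⟩ := h u hu x hx (Ne.symm hxu)
  obtain ⟨c, d, hcd, hxc⟩ := h v hv x hx (Ne.symm hxv)
  have h1 : e a + e b = e i + e j + (e c + e d) := by
    have h2 : u + (e a + e b) = u + (e i + e j + (e c + e d)) := by
      rw [← add_assoc, ← hxa, hxc, hvu]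
      simp only [add_assoc]
    exact add_left_cancel h2
  have hne : ∀ p q : Fin n, x = u + e p + e q → ¬ (p = i ∧ q = j) ∧ ¬ (p = j ∧ q = i) := by
    intro p q hpq
    constructor
    · rintro ⟨rfl, rfl⟩; exact hxv (hpq.trans hvu.symm)
    · rintro ⟨rfl, rfl⟩
      apply hxv
      rw [hpq, hvu, add_assoc, add_comm (e p), ← add_assoc]
  have hxb : x = u + e b + e a := by rw [hxa, add_assoc, add_comm (e a), ← add_assoc]
  rcases Fam_four hab hij h1 with rfl | rfl | rfl | rfl
  · exact ⟨b, Ne.symm hab, fun hb => (hne _ _ hxa).1 ⟨rfl, hb⟩, Or.inl hxa⟩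
  · exact ⟨b, fun hb => (hne _ _ hxa).2 ⟨rfl, hb⟩, Ne.symm hab, Or.inr hxa⟩
  · exact ⟨a, hab, fun hb => (hne _ _ hxb).1 ⟨rfl, hb⟩, Or.inl hxb⟩
  · exact ⟨a, fun hb => (hne _ _ hxb).2 ⟨rfl, hb⟩, hab, Or.inr hxb⟩

theorem Fam_cross {n : ℕ} {M : Set (Fin n → ZMod 2)}
    (h : ∀ u ∈ M, ∀ v ∈ M, u ≠ v → ∃ i j, i ≠ j ∧ v = u + e i + e j)
    {u x y : Fin n → ZMod 2} {i j a b : Fin n} (hij : i ≠ j) (hai : a ≠ i) (haj : a ≠ j)
    (hbi : b ≠ i) (hbj : b ≠ j) (hx : x ∈ M) (hy : y ∈ M) (hxa : x = u + e i + e a)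
    (hyb : y = u + e j + e b) : a = b := by
  by_contra hab
  have hxy : x ≠ y := by
    intro hxy
    have h2 : u + (e i + e a) = u + (e j + e b) := by
      rw [← add_assoc, ← hxa, hxy, hyb, add_assoc]
    exact Fam_ne hij hai hbi (add_left_cancel h2)
  obtain ⟨c, d, hcd, hyc⟩ := h x hx y hy hxy
  have h1 : e j + e b = e i + e a + (e c + e d) := by
    have h2 : u + (e j + e b) = u + (e i + e a + (e c + e d)) := by
      rw [← add_assoc, ← hyb, hyc, hxa]
      simp only [add_assoc]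
    exact add_left_cancel h2
  rcases Fam_four (Ne.symm hbj) (Ne.symm hai) h1 with h3 | h3 | h3 | h3
  · exact hij h3.symm
  · exact haj h3.symm
  · exact hbi h3
  · exact hab h3.symm

theorem fam {n : ℕ} {M : Set (Fin n → ZMod 2)}
    (h : ∀ u ∈ M, ∀ v ∈ M, u ≠ v → ∃ i j, i ≠ j ∧ v = u + e i + e j) :
    (∃ c, ∀ x ∈ M, x ∈ ball c) ∨ ∃ T, IsTet T ∧ ∀ x ∈ M, x ∈ T := by
  by_cases hM : ∃ u ∈ M, ∃ v ∈ M, u ≠ v
  swap
  · left
    by_cases hne : ∃ u, u ∈ M
    · obtain ⟨u, hu⟩ := hne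
      refine ⟨u, fun x hx => ?_⟩
      by_contra hcon
      apply hM
      refine ⟨u, hu, x, hx, ?_⟩
      rintro rfl
      exact hcon (self_mem_ball _)
    · exact ⟨0, fun x hx => absurd ⟨x, hx⟩ hne⟩
  obtain ⟨u, hu, v, hv, huv⟩ := hM
  obtain ⟨i, j, hij, hvu⟩ := h u hu v hv huv
  have key := Fam_first h hu hv hij hvu
  have b1 : ∀ p, u ∈ ball (u + e p) := fun p => mem_ball.2 (Or.inr ⟨p, by rw [add_add_cancel]⟩)
  by_cases h2 : ∃ y ∈ M, ∃ b, b ≠ i ∧ b ≠ j ∧ y = u + e j + e b
  swap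
  · left
    refine ⟨u + e i, fun x hx => ?_⟩
    by_cases hxu : x = u
    · rw [hxu]; exact b1 i
    by_cases hxv : x = v
    · rw [hxv, hvu]; exact add_e_mem_ball _ _
    obtain ⟨a, hai, haj, h3 | h3⟩ := key x hx hxu hxv
    · rw [h3]; exact add_e_mem_ball _ _
    · exact absurd ⟨x, hx, a, hai, haj, h3⟩ h2
  by_cases h1 : ∃ x ∈ M, ∃ a, a ≠ i ∧ a ≠ j ∧ x = u + e i + e a
  swap
  · left
    refine ⟨u + e j, fun x hx => ?_⟩
    by_cases hxu : x = u
    · rw [hxu]; exact b1 j
    by_cases hxv : x = v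
    · rw [hxv, hvu, add_assoc, add_comm (e i), ← add_assoc]; exact add_e_mem_ball _ _
    obtain ⟨a, hai, haj, h3 | h3⟩ := key x hx hxu hxv
    · exact absurd ⟨x, hx, a, hai, haj, h3⟩ h1
    · rw [h3]; exact add_e_mem_ball _ _
  right
  obtain ⟨x, hx, a, hai, haj, hxa⟩ := h1
  obtain ⟨y, hy, b, hbi, hbj, hyb⟩ := h2
  have hab := Fam_cross h hij hai haj hbi hbj hx hy hxa hyb
  subst hab
  refine ⟨tet u i j a, ⟨u, i, j, a, hij, Ne.symm hai, Ne.symm haj, rfl⟩, fun z hz => ?_⟩
  rw [mem_tet]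
  by_cases hzu : z = u
  · exact Or.inl hzu
  by_cases hzv : z = v
  · exact Or.inr (Or.inl (hzv.trans hvu))
  obtain ⟨c, hci, hcj, h3 | h3⟩ := key z hz hzu hzv
  · have := Fam_cross h hij hci hcj hbi hbj hz hy h3 hyb
    subst this
    exact Or.inr (Or.inr (Or.inl h3))
  · have := Fam_cross h hij hai haj hci hcj hx hz hxa h3
    subst this
    exact Or.inr (Or.inr (Or.inr h3))

end Pool.Agent.H2.MVQ
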