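import Pool.Agent.H2.MVQ.MVout
import Pool.Agent.H2.MVQ.Cls

/-! Row FromChi.  A partition of the cube into `k` 2-distance mutual-visibility sets gives a cover by balls and
tetrahedra with at most `k` members.

Proof.  By `mv_out` and `cls` every fibre `f ⁻¹' {i}` lies in a ball or in a tetrahedron.  Let
`A ⊆ Fin k` be the indices with a ball (classical filter), `c i` the chosen centre, `T i` the chosen
tetrahedron for the others; `C = A.image c`, `TT = Aᶜ.image T` (use `Classical.choice` / `choose` on a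
statement of the form: for every i there are c, T with (fibre in ball c) or (IsTet T and fibre in T)).
`C.card + TT.card ≤ A.card + Aᶜ.card = k`.  Every `x` is in the fibre of `f x`. -/

namespace Pool.Agent.H2.MVQ

theorem from_chi {n k : ℕ} (f : (Fin n → ZMod 2) → Fin k) (hf : ∀ i, IsMV2 (Q n) (f ⁻¹' {i})) :
    ∃ (C : Finset (Fin n → ZMod 2)) (TT : Finset (Finset (Fin n → ZMod 2))),
      IsCover C TT ∧ C.card + TT.card ≤ k := by
  classical
  have h : ∀ i : Fin k, (∃ c, ∀ x ∈ f ⁻¹' {i}, x ∈ ball c) ∨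
      ∃ T, IsTet T ∧ ∀ x ∈ f ⁻¹' {i}, x ∈ T :=
    fun i => cls fun u hu v hv huv => mv_out (hf i) hu hv huv
  let P : Fin k → Prop := fun i => ∃ c, ∀ x ∈ f ⁻¹' {i}, x ∈ ball c
  have hc : ∀ i : Fin k, ∃ c : Fin n → ZMod 2, P i → ∀ x ∈ f ⁻¹' {i}, x ∈ ball c := by
    intro i
    by_cases hi : P i
    · obtain ⟨c, hc⟩ := hi
      exact ⟨c, fun _ => hc⟩
    · exact ⟨0, fun h => absurd h hi⟩
  have hT : ∀ i : Fin k, ∃ T : Finset (Fin n → ZMod 2),
      ¬ P i → IsTet T ∧ ∀ x ∈ f ⁻¹' {i}, x ∈ T := by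
    intro i
    by_cases hi : P i
    · exact ⟨∅, fun h => absurd hi h⟩
    · obtain ⟨T, hT⟩ := (h i).resolve_left hi
      exact ⟨T, fun _ => hT⟩
  choose c hc using hc
  choose T hT using hT
  refine ⟨(Finset.univ.filter P).image c, (Finset.univ.filter fun i => ¬ P i).image T,
    ⟨?_, ?_⟩, ?_⟩
  · intro S hS
    obtain ⟨i, hi, rfl⟩ := Finset.mem_image.1 hS
    exact (hT i (Finset.mem_filter.1 hi).2).1
  · intro x
    by_cases hx : P (f x)
    · left
      exact ⟨c (f x), Finset.mem_image_of_mem c (Finset.mem_filter.2 ⟨Finset.mem_univ _, hx⟩),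
        hc (f x) hx x rfl⟩
    · right
      exact ⟨T (f x), Finset.mem_image_of_mem T (Finset.mem_filter.2 ⟨Finset.mem_univ _, hx⟩),
        (hT (f x) hx).2 x rfl⟩
  · calc _ ≤ (Finset.univ.filter P).card + (Finset.univ.filter fun i => ¬ P i).card :=
          add_le_add Finset.card_image_le Finset.card_image_le
      _ = (Finset.univ : Finset (Fin k)).card :=
          Finset.card_filter_add_card_filter_not P
      _ = k := by simp

end Pool.Agent.H2.MVQ
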