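import Pool.Agent.H2.MVQ.Bas

/-! Row Ham.  Hamming codes: if `2 ^ k ≤ n + 1` then `dom (Q n) * 2 ^ k ≤ 2 ^ n`.

Proof.  Let `G = Fin k → ZMod 2` (`2 ^ k` elements).  There is `φ : Fin n → G` whose range contains every
nonzero element (the set of nonzero elements has `2 ^ k - 1 ≤ n` members; take an embedding of
`{g // g ≠ 0}` into `Fin n` and its left inverse, `Function.invFun` or `Function.extend`).  Let
`H x = ∑ i, x i • φ i` (additive).  For `g : G` put `D g = univ.filter (H x = g)`.  Every `D g` is dominating: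
for `x ∉ D g`, `g - H x ≠ 0` is `φ i` for some `i`, and `x + e i ∈ D g` (`H (x + e i) = H x + φ i`), adjacent to `x`
(`adj_iff`).  The `D g` partition the cube: `∑ g, (D g).card = 2 ^ n` (`Finset.card_eq_sum_card_fiberwise`),
so some `g` has `(D g).card * 2 ^ k ≤ 2 ^ n` (otherwise the sum would be larger;
`Finset.exists_le_of_sum_le` or by contradiction with `Finset.sum_lt_sum`).  `dom (Q n) ≤ (D g).card`
(`Nat.sInf_le`). -/

namespace Pool.Agent.H2.MVQ

theorem ham {n k : ℕ} (h : 2 ^ k ≤ n + 1) : dom (Q n) * 2 ^ k ≤ 2 ^ n := by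
  classical
  have hcard : Fintype.card {g : Fin k → ZMod 2 // g ≠ 0} ≤ Fintype.card (Fin n) := by
    rw [Fintype.card_subtype_compl, card_cube, Fintype.card_fin]
    have : Fintype.card {g : Fin k → ZMod 2 // g = 0} = 1 := Fintype.card_unique
    rw [this]
    omega
  obtain ⟨f⟩ := Function.Embedding.nonempty_of_card_le hcard
  let φ : Fin n → (Fin k → ZMod 2) := Function.extend f (fun g => g.1) 0
  have hφ : ∀ g : Fin k → ZMod 2, g ≠ 0 → ∃ i, φ i = g := by
    intro g hg
    exact ⟨f ⟨g, hg⟩, f.injective.extend_apply _ _ _⟩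
  let H : (Fin n → ZMod 2) → (Fin k → ZMod 2) := fun x => ∑ i, x i • φ i
  have hH : ∀ x i, H (x + e i) = H x + φ i := by
    intro x i
    show ∑ j, (x + e i) j • φ j = ∑ j, x j • φ j + φ i
    have h1 : ∀ j, (x + e i) j • φ j = x j • φ j + (if j = i then φ j else 0) := by
      intro j
      rw [Pi.add_apply, add_smul, e_apply]
      split_ifs with hj
      · rw [one_smul]
      · rw [zero_smul]
    rw [Finset.sum_congr rfl (fun j _ => h1 j), Finset.sum_add_distrib]
    simp
  let D : (Fin k → ZMod 2) → Finset (Fin n → ZMod 2) := fun g => Finset.univ.filter fun x => H x = g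
  have hdom : ∀ g, dom (Q n) ≤ (D g).card := by
    intro g
    apply Nat.sInf_le
    refine ⟨D g, rfl, ?_⟩
    intro x hx
    have hx' : H x ≠ g := fun hc => hx (Finset.mem_filter.2 ⟨Finset.mem_univ _, hc⟩)
    obtain ⟨i, hi⟩ := hφ (g - H x) (sub_ne_zero.2 (Ne.symm hx'))
    refine ⟨x + e i, Finset.mem_filter.2 ⟨Finset.mem_univ _, ?_⟩, (adj_iff _ _).2 ⟨i, rfl⟩⟩
    rw [hH, hi]
    abel
  have hsum : ∑ g : Fin k → ZMod 2, (D g).card = 2 ^ n := by
    have h1 := Finset.card_eq_sum_card_fiberwise (s := (Finset.univ : Finset (Fin n → ZMod 2)))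
      (t := (Finset.univ : Finset (Fin k → ZMod 2))) (f := H) (fun x _ => Finset.mem_univ _)
    rw [Finset.card_univ, card_cube] at h1
    exact h1.symm
  have h2 : ∑ _g : Fin k → ZMod 2, dom (Q n) ≤ ∑ g : Fin k → ZMod 2, (D g).card :=
    Finset.sum_le_sum fun g _ => hdom g
  rw [hsum, Finset.sum_const, Finset.card_univ, card_cube, smul_eq_mul] at h2
  rw [mul_comm]
  exact h2

end Pool.Agent.H2.MVQ
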