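import Pool.Agent.H2.MVQ.Bas

/-! Row MVout.  Let `M` be a 2-distance mutual-visibility set of the cube and `u ≠ v` in `M`.  Then either
`v = u + e i` or `v = u + e i + e j` with `i ≠ j` and one of the two common neighbours outside `M`.

Proof.  Take the walk `p` of the definition; its length is 0, 1 or 2 (`interval_cases`; cases on `p`).
Length 0: `u = v`, excluded.  Length 1: adjacent, `adj_iff`.  Length 2: `u ~ w ~ v` with `w` in the support,
`w ≠ u`, `w ≠ v` (adjacent vertices differ), so `w ∉ M`; `w = u + e i`, `v = w + e j`; if `i = j` then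
`v = u` (`add_add_cancel`), excluded; so `i ≠ j` and the first alternative on `w` holds. -/

namespace Pool.Agent.H2.MVQ

theorem mv_out {n : ℕ} {M : Set (Fin n → ZMod 2)} (h : IsMV2 (Q n) M) {u v : Fin n → ZMod 2}
    (hu : u ∈ M) (hv : v ∈ M) (huv : u ≠ v) :
    (∃ i, v = u + e i) ∨ ∃ i j, i ≠ j ∧ v = u + e i + e j ∧ u + e i ∉ M := by
  obtain ⟨p, -, hp, hw⟩ := h u hu v hv
  cases p with
  | nil => exact absurd rfl huv
  | cons h1 p1 =>
    cases p1 with
    | nil => exact Or.inl ((adj_iff _ _).1 h1)
    | cons h2 p2 =>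
      cases p2 with
      | nil =>
        right
        obtain ⟨i, hi⟩ := (adj_iff _ _).1 h1
        obtain ⟨j, hj⟩ := (adj_iff _ _).1 h2
        have h3 := hw _ (by simp) h1.ne' h2.ne
        subst hi
        refine ⟨i, j, ?_, hj, h3⟩
        rintro rfl
        rw [add_add_cancel] at hj
        exact huv hj.symm
      | cons h3 p3 =>
        simp only [SimpleGraph.Walk.length_cons] at hp
        omega

end Pool.Agent.H2.MVQ
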