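import Pool.Agent.H2.MVQ.Bas

/-! Row MinT.  Every cover by balls and tetrahedra can be replaced by a sharp one (points of the tetrahedra
are covered exactly once) without more members.

Proof.  Strong induction on `TT.card` (or take a cover with `C.card + TT.card ≤ m` and least `TT.card`,
`Nat.find`).  If `(C, TT)` is not sharp there are `T ∈ TT` and `x ∈ T` with `x` in another ball or another
tetrahedron.  The other three points of `T` lie in one ball `ball o`: if `T = tet p i j k` then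
`x = p`, and the others are in `ball (p + e i + e j + e k)`; or `x = p + e i + e j` and the others
`p, p + e i + e k, p + e j + e k` are in `ball (p + e k)`; or `x = p + e i + e k`: `ball (p + e j)`; or
`x = p + e j + e k`: `ball (p + e i)`.  Replace `C` by `insert o C` and `TT` by `TT.erase T`: still a cover
(points of `T` other than `x` are in `ball o`; `x` is in the other set, which is still there), the total
number of members does not grow, and the number of tetrahedra is smaller. -/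

namespace Pool.Agent.H2.MVQ

theorem MinT_three {n : ℕ} {T : Finset (Fin n → ZMod 2)} (hT : IsTet T) {x : Fin n → ZMod 2}
    (hx : x ∈ T) : ∃ o : Fin n → ZMod 2, ∀ y ∈ T, y ≠ x → y ∈ ball o := by
  obtain ⟨p, i, j, k, -, -, -, rfl⟩ := hT
  rcases mem_tet.1 hx with h | h | h | h
  · refine ⟨p + e i + e j + e k, fun y hy hyx => mem_ball.2 (Or.inr ?_)⟩
    rcases mem_tet.1 hy with h' | h' | h' | h'
    · exact absurd (h'.trans h.symm) hyx
    · exact ⟨k, by rw [h', add_add_cancel]⟩
    · refine ⟨j, ?_⟩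
      rw [h', show p + e i + e j + e k + e j = p + e i + e k + e j + e j by abel, add_add_cancel]
    · refine ⟨i, ?_⟩
      rw [h', show p + e i + e j + e k + e i = p + e j + e k + e i + e i by abel, add_add_cancel]
  · refine ⟨p + e k, fun y hy hyx => mem_ball.2 (Or.inr ?_)⟩
    rcases mem_tet.1 hy with h' | h' | h' | h'
    · exact ⟨k, by rw [h', add_add_cancel]⟩
    · exact absurd (h'.trans h.symm) hyx
    · exact ⟨i, by rw [h']; abel⟩
    · exact ⟨j, by rw [h']; abel⟩
  · refine ⟨p + e j, fun y hy hyx => mem_ball.2 (Or.inr ?_)⟩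
    rcases mem_tet.1 hy with h' | h' | h' | h'
    · exact ⟨j, by rw [h', add_add_cancel]⟩
    · exact ⟨i, by rw [h']; abel⟩
    · exact absurd (h'.trans h.symm) hyx
    · exact ⟨k, by rw [h']⟩
  · refine ⟨p + e i, fun y hy hyx => mem_ball.2 (Or.inr ?_)⟩
    rcases mem_tet.1 hy with h' | h' | h' | h'
    · exact ⟨i, by rw [h', add_add_cancel]⟩
    · exact ⟨j, by rw [h']⟩
    · exact ⟨k, by rw [h']⟩
    · exact absurd (h'.trans h.symm) hyx

theorem MinT_step {n : ℕ} {C : Finset (Fin n → ZMod 2)} {TT : Finset (Finset (Fin n → ZMod 2))}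
    (h : IsCover C TT) {T : Finset (Fin n → ZMod 2)} (hT : T ∈ TT) {x : Fin n → ZMod 2}
    (hx : x ∈ T) (h2 : (∃ c ∈ C, x ∈ ball c) ∨ ∃ T' ∈ TT, T' ≠ T ∧ x ∈ T') :
    ∃ o : Fin n → ZMod 2, IsCover (insert o C) (TT.erase T) := by
  obtain ⟨o, ho⟩ := MinT_three (h.1 T hT) hx
  refine ⟨o, fun S hS => h.1 S (Finset.mem_of_mem_erase hS), fun y => ?_⟩
  by_cases hyx : y = x
  · subst hyx
    rcases h2 with ⟨c, hc, hyc⟩ | ⟨T', hT', hne, hy'⟩
    · exact Or.inl ⟨c, Finset.mem_insert_of_mem hc, hyc⟩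
    · exact Or.inr ⟨T', Finset.mem_erase.2 ⟨hne, hT'⟩, hy'⟩
  · rcases h.2 y with ⟨c, hc, hyc⟩ | ⟨T', hT', hy'⟩
    · exact Or.inl ⟨c, Finset.mem_insert_of_mem hc, hyc⟩
    · by_cases hTT : T' = T
      · subst hTT
        exact Or.inl ⟨o, Finset.mem_insert_self _ _, ho y hy' hyx⟩
      · exact Or.inr ⟨T', Finset.mem_erase.2 ⟨hTT, hT'⟩, hy'⟩

theorem MinT_ind {n m : ℕ} (N : ℕ) : ∀ (C : Finset (Fin n → ZMod 2))
    (TT : Finset (Finset (Fin n → ZMod 2))), TT.card ≤ N → IsCover C TT →
    C.card + TT.card ≤ m →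
    ∃ (C' : Finset (Fin n → ZMod 2)) (TT' : Finset (Finset (Fin n → ZMod 2))),
      IsCover C' TT' ∧ IsSharp C' TT' ∧ C'.card + TT'.card ≤ m := by
  induction N with
  | zero =>
    intro C TT hN h hm
    refine ⟨C, TT, h, fun T hT => ?_, hm⟩
    have h0 : TT = ∅ := Finset.card_eq_zero.1 (Nat.le_zero.1 hN)
    rw [h0] at hT
    exact absurd hT (Finset.notMem_empty T)
  | succ N ih =>
    intro C TT hN h hm
    by_cases hs : IsSharp C TT
    · exact ⟨C, TT, h, hs, hm⟩
    · unfold IsSharp at hs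
      push Not at hs
      obtain ⟨T, hT, x, hx, h3⟩ := hs
      have h2 : (∃ c ∈ C, x ∈ ball c) ∨ ∃ T' ∈ TT, T' ≠ T ∧ x ∈ T' := by
        by_cases h4 : ∀ c ∈ C, x ∉ ball c
        · exact Or.inr (h3 h4)
        · push Not at h4
          exact Or.inl h4
      obtain ⟨o, ho⟩ := MinT_step h hT hx h2
      have hc1 : (insert o C).card ≤ C.card + 1 := Finset.card_insert_le _ _
      have hc2 : (TT.erase T).card = TT.card - 1 := Finset.card_erase_of_mem hT
      have hc3 : 0 < TT.card := Finset.card_pos.2 ⟨T, hT⟩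
      exact ih _ _ (by omega) ho (by omega)

theorem min_t {n m : ℕ} {C : Finset (Fin n → ZMod 2)} {TT : Finset (Finset (Fin n → ZMod 2))}
    (h : IsCover C TT) (hm : C.card + TT.card ≤ m) :
    ∃ (C' : Finset (Fin n → ZMod 2)) (TT' : Finset (Finset (Fin n → ZMod 2))),
      IsCover C' TT' ∧ IsSharp C' TT' ∧ C'.card + TT'.card ≤ m := by
  exact MinT_ind TT.card C TT le_rfl h hm

end Pool.Agent.H2.MVQ
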