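import Pool.Agent.H2.MVQ.FromChi
import Pool.Agent.H2.MVQ.ChiLe
import Pool.Agent.H2.MVQ.MinT
import Pool.Agent.H2.MVQ.Excess
import Pool.Agent.H2.MVQ.Ham
import Pool.Agent.H2.MVQ.DomLe

/-! Assembly. -/

namespace Pool.Agent.H2.MVQ

theorem chi_mem (n : ℕ) : ∃ f : (Fin n → ZMod 2) → Fin (chi (Q n)), Function.Surjective f ∧
    ∀ i, IsMV2 (Q n) (f ⁻¹' {i}) := by
  have hne : {k | ∃ f : (Fin n → ZMod 2) → Fin k, Function.Surjective f ∧
      ∀ i, IsMV2 (Q n) (f ⁻¹' {i})}.Nonempty := by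
    refine ⟨Fintype.card (Fin n → ZMod 2), Fintype.equivFin _, (Fintype.equivFin _).surjective, ?_⟩
    intro i u hu v hv
    have huv : u = v := (Fintype.equivFin (Fin n → ZMod 2)).injective (by
      simp only [Set.mem_preimage, Set.mem_singleton_iff] at hu hv
      rw [hu, hv])
    subst huv
    refine ⟨SimpleGraph.Walk.nil, by simp, by simp, ?_⟩
    intro w hw hwu _
    simp only [SimpleGraph.Walk.support_nil, List.mem_singleton] at hw
    exact absurd hw hwu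
  exact Nat.sInf_mem hne

/-- a sharp cover of size at most `chi` -/
theorem exists_sharp (n : ℕ) : ∃ (C : Finset (Fin n → ZMod 2)) (TT : Finset (Finset (Fin n → ZMod 2))),
    IsCover C TT ∧ IsSharp C TT ∧ C.card + TT.card ≤ chi (Q n) := by
  obtain ⟨f, -, hf⟩ := chi_mem n
  obtain ⟨C, TT, h1, h2⟩ := from_chi f hf
  exact min_t h1 h2

theorem tet_three_le {n : ℕ} {C : Finset (Fin n → ZMod 2)} {TT : Finset (Finset (Fin n → ZMod 2))}
    (h : IsCover C TT) (ht : TT.card ≠ 0) : 3 ≤ n := by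
  obtain ⟨T, hT⟩ := Finset.card_pos.1 (Nat.pos_of_ne_zero ht)
  exact (zone (h.1 T hT)).1

/-- sphere covering bound for `chi` -/
theorem sphere (n : ℕ) : 2 ^ n ≤ (n + 1) * chi (Q n) := by
  obtain ⟨C, TT, h1, -, h3⟩ := exists_sharp n
  have h4 := count h1
  rcases Nat.eq_zero_or_pos TT.card with h0 | h0
  · have : (n + 1) * C.card ≤ (n + 1) * chi (Q n) := Nat.mul_le_mul_left _ (by omega)
    omega
  · have h5 := tet_three_le h1 (by omega)
    have h6 : 4 * TT.card ≤ (n + 1) * TT.card := Nat.mul_le_mul_right _ (by omega)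
    have h7 : (n + 1) * (C.card + TT.card) ≤ (n + 1) * chi (Q n) := Nat.mul_le_mul_left _ h3
    rw [mul_add] at h7
    omega

/-- van Wee bound for `chi` -/
theorem van_wee {n : ℕ} (hn : Even n) (h8 : 8 ≤ n) : 2 ^ n ≤ n * chi (Q n) := by
  obtain ⟨C, TT, h1, h2, h3⟩ := exists_sharp n
  have h4 := excess hn h1 h2
  have h8' : (8 : ℤ) ≤ n := by exact_mod_cast h8
  have h5 : 8 * ((n : ℤ) - 1) ≤ (n : ℤ) ^ 2 := by nlinarith
  have h6 : 8 * ((n : ℤ) - 1) * TT.card ≤ (n : ℤ) ^ 2 * TT.card :=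
    mul_le_mul_of_nonneg_right h5 (by positivity)
  have h3' : (C.card : ℤ) + TT.card ≤ chi (Q n) := by exact_mod_cast h3
  have h7 : (n : ℤ) ^ 2 * (C.card + TT.card) ≤ (n : ℤ) ^ 2 * chi (Q n) :=
    mul_le_mul_of_nonneg_left h3' (by positivity)
  have h9 : (n : ℤ) * 2 ^ n ≤ (n : ℤ) * (n * chi (Q n)) := by nlinarith
  have h10 : (2 : ℤ) ^ n ≤ n * chi (Q n) := le_of_mul_le_mul_left h9 (by linarith)
  exact_mod_cast h10

theorem eq_pow_sub_one {n k : ℕ} (h : n + 1 = 2 ^ k) : chi (Q n) = dom (Q n) := by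
  apply le_antisymm (chi_le_dom n)
  have h1 := sphere n
  have h2 := ham (n := n) (k := k) (by omega)
  rw [h] at h1
  have h3 : 2 ^ k * dom (Q n) ≤ 2 ^ k * chi (Q n) := by
    rw [mul_comm (2 ^ k) (dom _)]; exact h2.trans h1
  exact le_of_mul_le_mul_left h3 (by positivity)

theorem dom_le_four : chi (Q 4) = dom (Q 4) := by
  apply le_antisymm (chi_le_dom 4)
  have h1 := sphere 4
  have h2 := ham (n := 4) (k := 2) (by norm_num)
  omega

theorem dom_le_two : chi (Q 2) = dom (Q 2) := by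
  apply le_antisymm (chi_le_dom 2)
  have h1 := sphere 2
  have h2 := ham (n := 2) (k := 1) (by norm_num)
  omega

theorem eq_pow (k : ℕ) : chi (Q (2 ^ k)) = dom (Q (2 ^ k)) := by
  rcases lt_or_ge k 3 with hk | hk
  · interval_cases k
    · exact eq_pow_sub_one (k := 1) (by norm_num)
    · exact dom_le_two
    · exact dom_le_four
  · apply le_antisymm (chi_le_dom _)
    have h8 : 8 ≤ 2 ^ k := by
      calc 8 = 2 ^ 3 := by norm_num
        _ ≤ 2 ^ k := Nat.pow_le_pow_right (by norm_num) hk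
    have h1 := van_wee (n := 2 ^ k) (by
      obtain ⟨m, rfl⟩ := Nat.exists_eq_add_of_le' hk
      exact ⟨2 ^ (m + 2), by ring⟩) h8
    have h2 := ham (n := 2 ^ k) (k := k) (by omega)
    have h3 : 2 ^ k * dom (Q (2 ^ k)) ≤ 2 ^ k * chi (Q (2 ^ k)) := by
      rw [mul_comm (2 ^ k) (dom _)]; exact h2.trans h1
    exact le_of_mul_le_mul_left h3 (by positivity)

/-- comparison of the redundancies over the sphere covering bound -/
theorem gap {n : ℕ} (hn : 4 ≤ n) :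
    ((n : ℤ) - 3) * (((n : ℤ) + 1) * dom (Q n) - 2 ^ n) ≤
      2 * ((n : ℤ) - 1) * (((n : ℤ) + 1) * chi (Q n) - 2 ^ n) := by
  obtain ⟨C, TT, h1, h2, h3⟩ := exists_sharp n
  have h4 := count h1
  have h5 := dom_le h1
  have hn' : (4 : ℤ) ≤ n := by exact_mod_cast hn
  have h4' : (2 : ℤ) ^ n ≤ ((n : ℤ) + 1) * C.card + 4 * TT.card := by exact_mod_cast h4
  have h5' : (dom (Q n) : ℤ) ≤ C.card + 2 * TT.card := by exact_mod_cast h5
  have h3' : (C.card : ℤ) + TT.card ≤ chi (Q n) := by exact_mod_cast h3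
  have hT : (0 : ℤ) ≤ TT.card := by positivity
  have hd : (dom (Q n) : ℤ) ≤ chi (Q n) + TT.card := by linarith
  have ht : ((n : ℤ) - 3) * TT.card ≤ ((n : ℤ) + 1) * chi (Q n) - 2 ^ n := by nlinarith
  have h6 : ((n : ℤ) + 1) * dom (Q n) ≤ ((n : ℤ) + 1) * (chi (Q n) + TT.card) :=
    mul_le_mul_of_nonneg_left hd (by linarith)
  have h7 : ((n : ℤ) - 3) * (((n : ℤ) + 1) * dom (Q n) - 2 ^ n) ≤
      ((n : ℤ) - 3) * (((n : ℤ) + 1) * (chi (Q n) + TT.card) - 2 ^ n) :=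
    mul_le_mul_of_nonneg_left (by linarith) (by linarith)
  have h8 : ((n : ℤ) + 1) * (((n : ℤ) - 3) * TT.card) ≤
      ((n : ℤ) + 1) * (((n : ℤ) + 1) * chi (Q n) - 2 ^ n) :=
    mul_le_mul_of_nonneg_left ht (by linarith)
  nlinarith

/-- comparison of the redundancies over the van Wee bound, even `n` -/
theorem gap_even {n : ℕ} (he : Even n) (hn : 8 ≤ n) :
    ((n : ℤ) ^ 2 - 8 * n + 8) * ((n : ℤ) * dom (Q n) - 2 ^ n) ≤
      (2 * (n : ℤ) ^ 2 - 8 * n + 8) * ((n : ℤ) * chi (Q n) - 2 ^ n) := by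
  obtain ⟨C, TT, h1, h2, h3⟩ := exists_sharp n
  have h4 := excess he h1 h2
  have h5 := dom_le h1
  have hn' : (8 : ℤ) ≤ n := by exact_mod_cast hn
  have h5' : (dom (Q n) : ℤ) ≤ C.card + 2 * TT.card := by exact_mod_cast h5
  have h3' : (C.card : ℤ) + TT.card ≤ chi (Q n) := by exact_mod_cast h3
  have hT : (0 : ℤ) ≤ TT.card := by positivity
  have hd : (dom (Q n) : ℤ) ≤ chi (Q n) + TT.card := by linarith
  have hA : (0 : ℤ) ≤ (n : ℤ) ^ 2 - 8 * n + 8 := by nlinarith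
  have hn2 : (0 : ℤ) ≤ (n : ℤ) ^ 2 := by positivity
  have hs : (n : ℤ) ^ 2 * (C.card + TT.card) ≤ (n : ℤ) ^ 2 * chi (Q n) :=
    mul_le_mul_of_nonneg_left h3' hn2
  have ht : ((n : ℤ) ^ 2 - 8 * n + 8) * TT.card ≤ (n : ℤ) * (n * chi (Q n) - 2 ^ n) := by
    nlinarith
  have h6 : (n : ℤ) * dom (Q n) ≤ (n : ℤ) * (chi (Q n) + TT.card) :=
    mul_le_mul_of_nonneg_left hd (by linarith)
  have h7 : ((n : ℤ) ^ 2 - 8 * n + 8) * ((n : ℤ) * dom (Q n) - 2 ^ n) ≤
      ((n : ℤ) ^ 2 - 8 * n + 8) * ((n : ℤ) * (chi (Q n) + TT.card) - 2 ^ n) :=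
    mul_le_mul_of_nonneg_left (by linarith) hA
  have h8 : (n : ℤ) * (((n : ℤ) ^ 2 - 8 * n + 8) * TT.card) ≤
      (n : ℤ) * ((n : ℤ) * (n * chi (Q n) - 2 ^ n)) :=
    mul_le_mul_of_nonneg_left ht (by linarith)
  nlinarith

end Pool.Agent.H2.MVQ
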